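import Pool.Agent.NH31.KR
import Pool.Agent.NH29.GK.Hyp
import Pool.Agent.NH29.GK.Gnz
import Pool.Agent.NH29.GN.Fin3

/-!
MP_6d7a54_an, Q1: the infinitesimal Kobayashi pseudometric of the complement of a hypersurface of
`ℙ ^ n` with at least `n + 2` Zariski-general components is nowhere degenerate.

Let `q ≥ n + 2`, and let `d_1, …, d_q` be positive integers, such that at most `2 (q - n - 1)` of
them are equal to `1` (for `q = n + 2`: at most two of them), or such that for `1 ≤ m ≤ n` the sum of
any `q - 1 - m` of them is at least `n - m + n / m`.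

THEOREM. There is a nonzero polynomial `Φ` with rational coefficients in the coefficients of `q` forms
of degrees `d_1, …, d_q` in `n + 1` variables, with the following property. Let `F_1, …, F_q` be
complex forms of degrees `d_1, …, d_q` such that `Φ (F) ≠ 0`. Then there is a number `κ > 0` such that
for all hypersurfaces `X` of `ℙ ^ n` which contain the hypersurfaces `F_i = 0`, for all points `p` of
`M = ℙ ^ n \ X` and all tangent vectors `v` at `p`,
`F_M (p, v) ≥ κ |v|`,
where `|v|` is the norm for the Fubini-Study metric. So `F_M` is nowhere degenerate. In particular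
this is true for the hypersurface `X` with the components `F_i = 0`, which has only normal crossing
singularities and degree at least `n + 2` if the `F_i` are general.

The proof: a nonconstant entire curve in one of the strata `F_c = 0` for `c ∈ C`, `F_b ≠ 0` for
`b ∉ C`, would give a point over the field of the meromorphic functions at which, by Borel's lemma, the
quotients of the powers of the forms satisfy only trivial relations; for general forms there are no
such points (`Pool.Agent.NH29.GK.no_bad`). So the derivatives of the discs in the complement are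
bounded, by the theorem of Brody and Green (`Pool.Agent.NH29.GK.bounded_deriv`). The norm of the
derivative of a map to the projective space, embedded by the orthogonal projections to the lines of
`ℂ ^ (n + 1)`, is compared with the Fubini-Study norm in `Pool.Agent.NH31.KR.fubini_le`.

`fubini` and `royden` are defined in `Pool.Agent.NH31.KR`.
-/

set_option autoImplicit false

namespace Pool.Agent.Results.MP_6d7a54_an.GeneralComponents

open MvPolynomial Metric
open Pool.Agent.NH31.KR

variable {n q : ℕ}

/-- The homogeneous coordinates of the points of the complement of the hypersurface `G = 0`. -/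
def Complement (G : MvPolynomial (Fin (n + 1)) ℂ) : Set (Fin (n + 1) → ℂ) :=
  {x | x ≠ 0 ∧ eval x G ≠ 0}

/-- The indices of the coefficients of `q` forms of degrees `d i` in `n + 1` variables. -/
abbrev Index (n : ℕ) {q : ℕ} (d : Fin q → ℕ) : Type :=
  (i : Fin q) × {β : Fin (n + 1) →₀ ℕ // β.degree = d i}

/-- `F` is a family of forms of degrees `d i`, and `Φ (F) ≠ 0`. -/
def General {d : Fin q → ℕ} (Φ : MvPolynomial (Index n d) ℚ)
    (F : Fin q → MvPolynomial (Fin (n + 1)) ℂ) : Prop :=
  (∀ i, (F i).IsHomogeneous (d i)) ∧ aeval (fun s : Index n d => coeff s.2.1 (F s.1)) Φ ≠ 0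

/-- The conclusion of the theorem. -/
def Conclusion (n : ℕ) {q : ℕ} (d : Fin q → ℕ) : Prop :=
  ∃ Φ : MvPolynomial (Index n d) ℚ, Φ ≠ 0 ∧
    ∀ F : Fin q → MvPolynomial (Fin (n + 1)) ℂ, General Φ F → ∃ κ : ℝ, 0 < κ ∧
      -- the hypersurface `X` with the equation `G = 0` contains the hypersurfaces `F i = 0`
      ∀ (e : ℕ) (G : MvPolynomial (Fin (n + 1)) ℂ), G.IsHomogeneous e →
        (∀ i, ∀ x : Fin (n + 1) → ℂ, eval x (F i) = 0 → eval x G = 0) →
        -- the infinitesimal pseudometric at the points of the complement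
        ∀ x ∈ Complement G, ∀ w : Fin (n + 1) → ℂ,
          κ * fubini x w ≤ royden (Complement G) x w ∧
            ((∀ c : ℂ, w ≠ c • x) → 0 < royden (Complement G) x w)

section Proof

open Pool.Agent.NH29.GK
open Pool.Agent.NH29.GN (Idx Mon fv NoZero Num2)

theorem form_coeff {d : Fin q → ℕ} {F : Fin q → MvPolynomial (Fin (n + 1)) ℂ}
    (hF : ∀ i, (F i).IsHomogeneous (d i)) (b : Fin q) :
    form (fun s : Idx n d => coeff s.2.1 (F s.1)) b = F b := by
  classical
  ext γ
  unfold form
  rw [coeff_sum]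
  simp only [coeff_monomial]
  by_cases h : γ.degree = d b
  · rw [Finset.sum_eq_single (⟨γ, h⟩ : Mon n (d b))]
    · rw [if_pos rfl]
    · intro β _ hβ
      rw [if_neg]
      intro h'
      exact hβ (Subtype.ext h')
    · intro h'
      exact absurd (Finset.mem_univ _) h'
  · rw [(hF b).coeff_eq_zero h]
    refine Finset.sum_eq_zero fun β _ => ?_
    rw [if_neg]
    intro h'
    exact h (by rw [← h']; exact β.2)

theorem isOpen_complement (G : MvPolynomial (Fin (n + 1)) ℂ) : IsOpen (Complement G) := by
  have h1 : IsOpen {x : Fin (n + 1) → ℂ | x ≠ 0} := isOpen_ne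
  have h2 : IsOpen {x : Fin (n + 1) → ℂ | eval x G ≠ 0} :=
    isOpen_ne_fun (continuous_eval G) continuous_const
  exact h1.inter h2

theorem conclusion {d : Fin q → ℕ} (hd : ∀ i, 1 ≤ d i) (hq : n + 2 ≤ q)
    (hNum : ∀ C : Finset (Fin q), C ≠ Finset.univ → Num2 n d C) : Conclusion n d := by
  classical
  have hV : ∀ H ∈ (∅ : Set (MvPolynomial (Fin (n + 1)) ℚ)), ∃ e, H.IsHomogeneous e :=
    fun H hH => absurd hH (Set.notMem_empty H)
  have hN : NoZero (∅ : Set (MvPolynomial (Fin (n + 1)) ℚ)) (fun j : Fin (n + 1) => X j) :=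
    Pool.Agent.NH29.GN.Fn.noZero_of_points (K := ℂ) fun y _ hy => funext fun j => by
      have h1 := hy j
      rwa [aeval_X] at h1
  have hℓ : ∀ j : Fin (n + 1), (X j : MvPolynomial (Fin (n + 1)) ℚ).IsHomogeneous 1 := fun j =>
    isHomogeneous_X ℚ j
  obtain ⟨Φ₂, hΦ₂, h2⟩ := no_bad hV hℓ hN (by omega) hd hNum
  obtain ⟨Φ₃, hΦ₃, h3⟩ := gnz ℚ n n q ∅ hV (fun j => X j) hℓ hN (by omega) d hd
  refine ⟨Φ₂ * Φ₃, mul_ne_zero hΦ₂ hΦ₃, fun F hF => ?_⟩
  obtain ⟨hFh, hΦ⟩ := hF
  rw [map_mul] at hΦ
  have e2 := left_ne_zero_of_mul hΦ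
  have e3 := right_ne_zero_of_mul hΦ
  have hform := form_coeff hFh
  obtain ⟨D, hD, hbd⟩ := bounded_deriv hV (h2 _ e2) (fun y hy1 hy2 => h3 ℂ _ e3 y hy1 fun i => by
    rw [eval_form]
    exact hy2 i) ∅
  have hc : 0 < (2 * ((n : ℝ) + 1) ^ 2 * D)⁻¹ := by positivity
  refine ⟨(2 * ((n : ℝ) + 1) ^ 2 * D)⁻¹, hc, fun e G _ hG x hx w => ?_⟩
  have h4 : (2 * ((n : ℝ) + 1) ^ 2 * D)⁻¹ * fubini x w ≤ royden (Complement G) x w := by
    refine le_royden (fun x hx => hx.1) hD hbd (isOpen_complement G) ?_ hx w
    intro u hu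
    refine ⟨hu.1, fun H hH => absurd hH (Set.notMem_empty H),
      fun c hc => absurd hc (Finset.notMem_empty c), fun b _ h0 => hu.2 ?_⟩
    have h5 := hform b
    rw [h5] at h0
    exact hG b u h0
  exact ⟨h4, fun hw => lt_of_lt_of_le (mul_pos hc (fubini_pos hx.1 hw)) h4⟩

end Proof

theorem result {n q : ℕ} (d : Fin q → ℕ) (hd : ∀ i, 0 < d i) (hq : n + 2 ≤ q) :
    -- at most `2 (q - n - 1)` of the degrees are equal to `1`
    ((Finset.univ.filter fun i => d i = 1).card ≤ 2 * (q - n - 1) → Conclusion n d) ∧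
    -- for `1 ≤ m ≤ n`, the sum of any `q - 1 - m` of the degrees is at least `n - m + n / m`
    ((∀ m, 1 ≤ m → m ≤ n → ∀ B : Finset (Fin q), B.card = q - 1 - m →
      n + m * (n - m) ≤ m * ∑ b ∈ B, d b) → Conclusion n d) :=
  ⟨fun h => conclusion hd hq (Pool.Agent.NH29.GN.Fn.num_of_few hd hq (by omega)),
    fun h => conclusion hd hq
      (Pool.Agent.NH29.GN.Fn.num_of_sum hq fun m h1 h2 B hB => h m h1 h2 B (by omega))⟩

end Pool.Agent.Results.MP_6d7a54_an.GeneralComponents
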